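import Pool.Agent.W336.CS.Stmts

/-!
# Two elements of prime order in a Frobenius kernel or complement
-/

namespace Pool.Agent.W366.CS

open Pool.Agent.W336.CS Subgroup MulAction ConjAct
open scoped Pointwise

/-- the number of Sylow subgroups divides the order -/
lemma card_sylow_dvd {K : Type} [Group K] [Finite K] (r : ℕ) [Fact r.Prime] :
    Nat.card (Sylow r K) ∣ Nat.card K := by
  have P : Sylow r K := default
  rw [Sylow.card_eq_index_normalizer P]
  exact Subgroup.index_dvd_card _

/-- if `c` of prime order `p` acts without fixed points on the normal subgroup `K ≠ 1` then there is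
`k` in `K` of prime order commuting with `c * k * c⁻¹`. -/
lemma find_aux {V : Type} [Group V] [Finite V] (K : Subgroup V) [K.Normal] (hK : K ≠ ⊥) (c : V)
    (p : ℕ) [hp : Fact p.Prime] (hc : orderOf c = p)
    (hfix : ∀ u ∈ K, c * u * c⁻¹ = u → u = 1) :
    ∃ k ∈ K, (orderOf k).Prime ∧ (c * k * c⁻¹) * k = k * (c * k * c⁻¹) := by
  set C : Subgroup (ConjAct V) := zpowers (toConjAct c) with hC
  have hCp : IsPGroup p C := by
    apply IsPGroup.of_card (n := 1)
    rw [hC, Nat.card_zpowers, pow_one]
    rw [← hc]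
    exact orderOf_injective (toConjAct : V ≃* ConjAct V).toMonoidHom
      (toConjAct : V ≃* ConjAct V).injective c
  have h1 := hCp.card_modEq_card_fixedPoints K
  have h2 : fixedPoints C K = {1} := by
    ext u
    simp only [Set.mem_singleton_iff, mem_fixedPoints]
    constructor
    · intro hu
      have h3 := hu ⟨toConjAct c, mem_zpowers _⟩
      apply Subtype.ext
      apply hfix u u.2
      have h4 := congrArg (fun t : K => (t : V)) h3
      simp only [Subgroup.smul_def, Subgroup.val_conj_smul, toConjAct_smul] at h4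
      exact h4
    · intro hu g
      rw [hu, smul_one]
  rw [h2] at h1
  have hpK : ¬ p ∣ Nat.card K := by
    intro h
    have h3 : Nat.card ({1} : Set K) = 1 := by simp
    rw [h3] at h1
    have h4 := (Nat.modEq_zero_iff_dvd.mpr h).symm.trans h1
    have h5 : p ∣ 1 := Nat.modEq_zero_iff_dvd.mp h4.symm
    exact hp.out.one_lt.ne' (Nat.dvd_one.mp h5)
  have hK1 : Nat.card K ≠ 1 := by
    intro h
    exact hK ((Subgroup.card_eq_one).mp h)
  obtain ⟨r, hr, hrK⟩ := Nat.exists_prime_and_dvd hK1
  haveI : Fact r.Prime := ⟨hr⟩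
  have hpS : ¬ p ∣ Nat.card (Sylow r K) := fun h => hpK (h.trans (card_sylow_dvd r))
  obtain ⟨R, hR⟩ := hCp.nonempty_fixed_point_of_prime_not_dvd_card (Sylow r K) hpS
  have hRfix : (toConjAct c) • R = R := by
    have := hR ⟨toConjAct c, mem_zpowers _⟩
    exact this
  have hRc : ∀ u : K, u ∈ R → (toConjAct c) • u ∈ R := by
    intro u hu
    have h3 : (toConjAct c) • u ∈ (toConjAct c) • R := by
      change (toConjAct c) • u ∈ (toConjAct c) • (R : Subgroup K)
      exact Subgroup.smul_mem_pointwise_smul _ _ _ hu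
    rwa [hRfix] at h3
  have hRne : (R : Subgroup K) ≠ ⊥ := R.ne_bot_of_dvd_card hrK
  haveI : Nontrivial (R : Subgroup K) := (Subgroup.nontrivial_iff_ne_bot _).mpr hRne
  haveI hZ := R.2.center_nontrivial
  have hZp : IsPGroup r (center (R : Subgroup K)) := R.2.to_subgroup _
  have hrZ : r ∣ Nat.card (center (R : Subgroup K)) := by
    obtain ⟨n, hn0, hn⟩ := hZp.nontrivial_iff_card.mp hZ
    rw [hn]
    exact dvd_pow_self r hn0.ne'
  obtain ⟨z, hz⟩ := exists_prime_orderOf_dvd_card' r hrZ
  set k : V := (((z : (R : Subgroup K)) : K) : V) with hk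
  refine ⟨k, ((z : (R : Subgroup K)) : K).2, ?_, ?_⟩
  · have : orderOf k = r := by
      rw [hk, Subgroup.orderOf_coe, Subgroup.orderOf_coe, Subgroup.orderOf_coe, hz]
    rw [this]
    exact hr
  · have h3 := hRc ((z : (R : Subgroup K)) : K) (z : (R : Subgroup K)).2
    have h4 := Subgroup.mem_center_iff.mp z.2 ⟨_, h3⟩
    have h5 := congrArg (fun t : (R : Subgroup K) => ((t : K) : V)) h4
    simp only [Subgroup.coe_mul, Subgroup.val_conj_smul, toConjAct_smul] at h5
    exact h5

theorem find : S_frob → S_find := by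
  intro hfrob V _ _ E hE hET hEB
  obtain ⟨K, hKn, hKE, hKET⟩ := hfrob V E hE
  have hKB : K ≠ ⊥ := by
    intro h
    rw [h, bot_sup_eq] at hKET
    exact hET hKET
  have hE1 : Nat.card E ≠ 1 := by
    intro h
    exact hEB ((Subgroup.card_eq_one).mp h)
  obtain ⟨p, hp, hpE⟩ := Nat.exists_prime_and_dvd hE1
  haveI : Fact p.Prime := ⟨hp⟩
  obtain ⟨c', hc'⟩ := exists_prime_orderOf_dvd_card' p hpE
  set c : V := (c' : V) with hcdef
  have hc : orderOf c = p := by rw [hcdef, Subgroup.orderOf_coe, hc']
  have hc1 : c ≠ 1 := by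
    intro h
    rw [h, orderOf_one] at hc
    exact hp.one_lt.ne hc
  have hfix : ∀ u ∈ K, c * u * c⁻¹ = u → u = 1 := by
    intro u hu h
    have h1 : u * c * u⁻¹ ∈ E := by
      have : u * c * u⁻¹ = c := by
        have h2 : c * u = u * c := by
          rw [mul_inv_eq_iff_eq_mul] at h
          exact h
        rw [← h2]
        simp
      rw [this]
      exact c'.2
    have h2 := hE u c c'.2 hc1 h1
    have h3 : u ∈ K ⊓ E := mem_inf.mpr ⟨hu, h2⟩
    rw [hKE, mem_bot] at h3
    exact h3
  obtain ⟨k, hkK, hkr, hkc⟩ := find_aux K hKB c p hc hfix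
  have hk1 : k ≠ 1 := by
    intro h
    rw [h, orderOf_one] at hkr
    exact Nat.not_prime_one hkr
  by_cases h : c * k * c⁻¹ ∈ zpowers k
  · refine ⟨k, c, hkr, by rw [hc]; exact hp, h, Or.inr ⟨?_, h⟩⟩
    intro h1
    apply hk1
    apply hfix k hkK
    rw [h1]
    simp
  · refine ⟨k, c * k * c⁻¹, hkr, ?_, ?_, Or.inl ⟨hkc, ?_, h⟩⟩
    · have : orderOf (c * k * c⁻¹) = orderOf k := by
        have := orderOf_injective (MulAut.conj c).toMonoidHom (MulAut.conj c).injective k
        simpa using this
      rw [this]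
      exact hkr
    · rw [hkc, mul_assoc, mul_inv_cancel, mul_one]
      exact mem_zpowers k
    · have := orderOf_injective (MulAut.conj c).toMonoidHom (MulAut.conj c).injective k
      simpa using this

end Pool.Agent.W366.CS
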