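import Pool.Agent.W336.CS.Stmts

/-!
# Adding bridges to a forest
-/

namespace Pool.Agent.W366.CS

open Pool.Agent.W336.CS

variable {G : Type} [Group G]

lemma conn_mono {B : Set G} {α β : Cfg G} (h : ∀ f, α f = true → β f = true) {a b : G}
    (hab : Conn B α a b) : Conn B β a b := by
  induction hab with
  | rel x y hxy =>
    rcases hxy with ⟨u, hu, rfl⟩ | ⟨s, hs, rfl⟩
    · exact Relation.EqvGen.rel _ _ (Or.inl ⟨u, hu, rfl⟩)
    · exact Relation.EqvGen.rel _ _ (Or.inr ⟨s, h _ hs, rfl⟩)
  | refl x => exact Relation.EqvGen.refl _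
  | symm x y _ ih => exact Relation.EqvGen.symm _ _ ih
  | trans x y z _ _ ih1 ih2 => exact Relation.EqvGen.trans _ _ _ ih1 ih2

lemma conn_trans {B : Set G} {α : Cfg G} {a b c : G} (h1 : Conn B α a b) (h2 : Conn B α b c) :
    Conn B α a c := Relation.EqvGen.trans _ _ _ h1 h2

lemma conn_symm {B : Set G} {α : Cfg G} {a b : G} (h1 : Conn B α a b) : Conn B α b a :=
  Relation.EqvGen.symm _ _ h1

lemma conn_refl {B : Set G} {α : Cfg G} (a : G) : Conn B α a a := Relation.EqvGen.refl _

lemma conn_edge {B : Set G} {α : Cfg G} {e : G × G} (h : α e = true) :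
    Conn B α e.1 (e.2 * e.1) :=
  Relation.EqvGen.rel _ _ (Or.inr ⟨e.2, h, rfl⟩)

/-- removing one edge -/
lemma conn_swap {B : Set G} {α α' : Cfg G} {e : G × G}
    (h : ∀ f, α' f = true → α f = true ∨ f = e) {a b : G} (hab : Conn B α' a b) :
    Conn B α a b ∨ (Conn B α a e.1 ∧ Conn B α (e.2 * e.1) b) ∨
      (Conn B α a (e.2 * e.1) ∧ Conn B α e.1 b) := by
  induction hab with
  | rel x y hxy =>
    rcases hxy with ⟨u, hu, rfl⟩ | ⟨s, hs, rfl⟩
    · exact Or.inl (Relation.EqvGen.rel _ _ (Or.inl ⟨u, hu, rfl⟩))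
    · rcases h _ hs with h1 | h1
      · exact Or.inl (Relation.EqvGen.rel _ _ (Or.inr ⟨s, h1, rfl⟩))
      · right
        left
        subst h1
        exact ⟨conn_refl _, conn_refl _⟩
  | refl x => exact Or.inl (conn_refl _)
  | symm x y _ ih =>
    rcases ih with h1 | ⟨h1, h2⟩ | ⟨h1, h2⟩
    · exact Or.inl (conn_symm h1)
    · exact Or.inr (Or.inr ⟨conn_symm h2, conn_symm h1⟩)
    · exact Or.inr (Or.inl ⟨conn_symm h2, conn_symm h1⟩)
  | trans x y z _ _ ih1 ih2 =>
    rcases ih1 with h1 | ⟨h1, h2⟩ | ⟨h1, h2⟩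
    · rcases ih2 with k1 | ⟨k1, k2⟩ | ⟨k1, k2⟩
      · exact Or.inl (conn_trans h1 k1)
      · exact Or.inr (Or.inl ⟨conn_trans h1 k1, k2⟩)
      · exact Or.inr (Or.inr ⟨conn_trans h1 k1, k2⟩)
    · rcases ih2 with k1 | ⟨k1, k2⟩ | ⟨k1, k2⟩
      · exact Or.inr (Or.inl ⟨h1, conn_trans h2 k1⟩)
      · exact Or.inr (Or.inl ⟨h1, k2⟩)
      · exact Or.inl (conn_trans h1 k2)
    · rcases ih2 with k1 | ⟨k1, k2⟩ | ⟨k1, k2⟩
      · exact Or.inr (Or.inr ⟨h1, conn_trans h2 k1⟩)
      · exact Or.inl (conn_trans h1 k2)
      · exact Or.inr (Or.inr ⟨h1, k2⟩)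

/-- a connection uses finitely many edges -/
lemma conn_finite [DecidableEq G] {B : Set G} {α β : Cfg G} {a b : G}
    (hab : Conn B β a b) :
    ∃ Z : Finset (G × G), (∀ e ∈ Z, β e = true ∧ α e = false) ∧
      Conn B (fun f => α f || decide (f ∈ Z)) a b := by
  induction hab with
  | rel x y hxy =>
    rcases hxy with ⟨u, hu, rfl⟩ | ⟨s, hs, rfl⟩
    · exact ⟨∅, by simp, Relation.EqvGen.rel _ _ (Or.inl ⟨u, hu, rfl⟩)⟩
    · by_cases h : α (x, s) = true
      · exact ⟨∅, by simp, Relation.EqvGen.rel _ _ (Or.inr ⟨s, by simp [h], rfl⟩)⟩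
      · refine ⟨{(x, s)}, ?_, Relation.EqvGen.rel _ _ (Or.inr ⟨s, by simp, rfl⟩)⟩
        intro e he
        rw [Finset.mem_singleton] at he
        subst he
        exact ⟨hs, by simpa using h⟩
  | refl x => exact ⟨∅, by simp, conn_refl _⟩
  | symm x y _ ih =>
    obtain ⟨Z, h1, h2⟩ := ih
    exact ⟨Z, h1, conn_symm h2⟩
  | trans x y z _ _ ih1 ih2 =>
    obtain ⟨Z1, h1, h2⟩ := ih1
    obtain ⟨Z2, k1, k2⟩ := ih2
    refine ⟨Z1 ∪ Z2, ?_, ?_⟩
    · intro e he
      rcases Finset.mem_union.mp he with h | h
      · exact h1 e h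
      · exact k1 e h
    · refine conn_trans (conn_mono ?_ h2) (conn_mono ?_ k2)
      · intro f hf
        simp only [Bool.or_eq_true, decide_eq_true_eq, Finset.mem_union] at hf ⊢
        tauto
      · intro f hf
        simp only [Bool.or_eq_true, decide_eq_true_eq, Finset.mem_union] at hf ⊢
        tauto

theorem forest_add : S_for := by
  intro G _ _ B ω η ζ hω hζ e he hcon
  by_cases hωe : ω e = true
  · -- an old edge
    obtain ⟨Z, hZ, hZc⟩ := conn_finite (α := Function.update ω e false) hcon
    have hZ' : ∀ f ∈ Z, f ≠ e ∧ ζ f = true ∧ ω f = false := by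
      intro f hf
      obtain ⟨h1, h2⟩ := hZ f hf
      by_cases hfe : f = e
      · subst hfe
        simp at h1
      · rw [Function.update_of_ne hfe] at h1 h2
        exact ⟨hfe, h1, h2⟩
    clear hZ hcon
    induction Z using Finset.induction_on with
    | empty =>
      apply hω e hωe
      refine conn_mono ?_ hZc
      intro f hf
      simpa using hf
    | insert e' Z he' ih =>
      by_cases hΓ : Conn B (fun f => Function.update ω e false f || decide (f ∈ Z)) e.1 (e.2 * e.1)
      · exact ih hΓ (fun f hf => hZ' f (Finset.mem_insert_of_mem hf))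
      · obtain ⟨hne, hζ', hω'⟩ := hZ' e' (Finset.mem_insert_self _ _)
        have hkey := ((hζ e').mp hζ').resolve_left (by rw [hω']; simp)
        obtain ⟨hη', hno⟩ := hkey
        apply hno
        have hle : ∀ f, (Function.update ω e false f || decide (f ∈ Z)) = true →
            (ω f || Function.update η e' false f) = true := by
          intro f hf
          simp only [Bool.or_eq_true, decide_eq_true_eq] at hf ⊢
          rcases hf with hf | hf
          · left
            by_cases hfe : f = e
            · subst hfe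
              exact hωe
            · rwa [Function.update_of_ne hfe] at hf
          · right
            have hfe' : f ≠ e' := by
              intro h
              subst h
              exact he' hf
            rw [Function.update_of_ne hfe']
            obtain ⟨_, h2, h3⟩ := hZ' f (Finset.mem_insert_of_mem hf)
            exact (((hζ f).mp h2).resolve_left (by rw [h3]; simp)).1
        have hee : Conn B (fun f => ω f || Function.update η e' false f) e.1 (e.2 * e.1) :=
          conn_edge (by simp [hωe])
        have hsw := conn_swap (e := e')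
          (α := fun f => Function.update ω e false f || decide (f ∈ Z)) (by
            intro f hf
            simp only [Bool.or_eq_true, decide_eq_true_eq, Finset.mem_insert] at hf ⊢
            tauto) hZc
        rcases hsw with h | ⟨h1, h2⟩ | ⟨h1, h2⟩
        · exact absurd h hΓ
        · have k1 := conn_mono hle h1
          have k2 := conn_mono hle h2
          exact conn_trans (conn_symm k1) (conn_trans hee (conn_symm k2))
        · have k1 := conn_mono hle h1
          have k2 := conn_mono hle h2
          exact conn_trans k2 (conn_trans (conn_symm hee) k1)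
  · obtain ⟨h1, h2⟩ := ((hζ e).mp he).resolve_left hωe
    apply h2
    refine conn_mono ?_ hcon
    intro f hf
    by_cases hfe : f = e
    · subst hfe
      simp at hf
    · rw [Function.update_of_ne hfe] at hf
      rw [Function.update_of_ne hfe]
      rcases (hζ f).mp hf with h | h
      · simp [h]
      · simp [h.1]

end Pool.Agent.W366.CS
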