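import Pool.Agent.W336.CS.Stmts
import Pool.Agent.Helper884.IC.Compl

/-!
# Frobenius' theorem

Existence of the normal complement of a malnormal subgroup of a finite group.
-/

open scoped BigOperators Classical
open Representation Pool.Agent.Helper884.IC

noncomputable section

namespace Pool.Agent.W366.CS

variable {W : Type} [Group W] [Fintype W] (E : Subgroup W)

/-- auxiliary function -/
def lam (phi : E → ℂ) (x : W) : ℂ := if h : x ∈ E then phi ⟨x, h⟩ - phi 1 else 0

lemma lam_coe (phi : E → ℂ) (e : E) : lam E phi (e : W) = phi e - phi 1 := by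
  simp [lam]

lemma lam_not (phi : E → ℂ) {x : W} (h : x ∉ E) : lam E phi x = 0 := by
  simp [lam, h]

/-- the exceptional extension of a class function -/
def T (phi : E → ℂ) (w : W) : ℂ :=
  phi 1 + (Nat.card E : ℂ)⁻¹ * ∑ g : W, lam E phi (g⁻¹ * w * g)

lemma sum_sub (k : W → ℂ) (hk : ∀ x, x ∉ E → k x = 0) : ∑ x : W, k x = ∑ e : E, k e := by
  rw [← Finset.sum_subtype (Finset.univ.filter (· ∈ E)) (by simp) k]
  symm
  apply Finset.sum_subset (Finset.filter_subset _ _)
  intro x _ hx
  apply hk
  simpa using hx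

lemma T_class (phi : E → ℂ) : IsClass (T E phi) := by
  intro w y
  unfold T
  congr 2
  refine Fintype.sum_equiv (Equiv.mulLeft y⁻¹) _ _ fun g => ?_
  simp only [Equiv.coe_mulLeft]
  congr 1
  group

lemma B_T (phi : E → ℂ) (h : W → ℂ) (hh : IsClass h) :
    B (T E phi) h = phi 1 * B (fun _ => 1) h + B (fun e : E => phi e - phi 1) (fun e : E => h e) := by
  have hW : (Nat.card W : ℂ) ≠ 0 := cardG_ne
  have key : ∀ g : W, ∑ w : W, lam E phi (g⁻¹ * w * g) * h w⁻¹
      = ∑ e : E, (phi e - phi 1) * h (e : W)⁻¹ := by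
    intro g
    have h1 : ∑ w : W, lam E phi (g⁻¹ * w * g) * h w⁻¹ = ∑ x : W, lam E phi x * h x⁻¹ := by
      refine Fintype.sum_equiv (MulAut.conj g⁻¹).toEquiv _ _ fun w => ?_
      have e1 : (MulAut.conj g⁻¹).toEquiv w = g⁻¹ * w * g := by simp
      rw [e1]
      congr 1
      have := hh w⁻¹ g⁻¹
      rw [← this]
      congr 1
      group
    rw [h1, sum_sub E _ (fun x hx => by rw [lam_not E phi hx, zero_mul])]
    exact Finset.sum_congr rfl fun e _ => by rw [lam_coe]
  have h2 : ∑ w : W, T E phi w * h w⁻¹ = phi 1 * ∑ w : W, h w⁻¹ +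
      (Nat.card E : ℂ)⁻¹ * ((Nat.card W : ℂ) * ∑ e : E, (phi e - phi 1) * h (e : W)⁻¹) := by
    have h4 : ∀ w : W, T E phi w * h w⁻¹ = phi 1 * h w⁻¹ +
        (Nat.card E : ℂ)⁻¹ * ∑ g : W, lam E phi (g⁻¹ * w * g) * h w⁻¹ := by
      intro w
      rw [T, add_mul, mul_assoc _ _ (h w⁻¹), Finset.sum_mul]
    rw [Finset.sum_congr rfl fun w _ => h4 w, Finset.sum_add_distrib, ← Finset.mul_sum,
      ← Finset.mul_sum, Finset.sum_comm, Finset.sum_congr rfl fun g _ => key g]
    simp
  unfold B
  rw [h2]
  simp only [one_mul]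
  have h3 : ∀ e : E, h ((e⁻¹ : E) : W) = h (e : W)⁻¹ := fun e => by simp
  simp only [h3]
  field_simp

variable {E}

lemma T_coe (hE : Pool.Agent.W336.CS.Mal E) (phi : E → ℂ) (hphi : IsClass phi) (e : E) :
    T E phi (e : W) = phi e := by
  by_cases he : (e : W) = 1
  · have he' : e = 1 := Subtype.ext he
    subst he'
    unfold T
    have : ∀ g : W, lam E phi (g⁻¹ * ((1 : E) : W) * g) = 0 := by
      intro g
      have h1 : g⁻¹ * ((1 : E) : W) * g = ((1 : E) : W) := by simp
      rw [h1, lam_coe, sub_self]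
    rw [Finset.sum_eq_zero fun g _ => this g]
    simp
  · have h1 : ∑ g : W, lam E phi (g⁻¹ * (e : W) * g) = ∑ g : E, lam E phi ((g : W)⁻¹ * (e : W) * g) := by
      apply sum_sub
      intro g hg
      apply lam_not
      intro hmem
      apply hg
      have := hE g⁻¹ e e.2 he (by simpa using hmem)
      simpa using this
    have h2 : ∀ g : E, lam E phi ((g : W)⁻¹ * (e : W) * g) = phi e - phi 1 := by
      intro g
      have h3 : (g : W)⁻¹ * (e : W) * g = ((g⁻¹ * e * g : E) : W) := by simp
      rw [h3, lam_coe]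
      have := hphi e g⁻¹
      rw [inv_inv] at this
      rw [this]
    unfold T
    rw [h1, Finset.sum_congr rfl fun g _ => h2 g]
    have hEc : (Nat.card E : ℂ) ≠ 0 := cardG_ne
    simp only [Finset.sum_const, Finset.card_univ, nsmul_eq_mul]
    rw [← Nat.card_eq_fintype_card]
    field_simp
    ring

lemma B_TT (hE : Pool.Agent.W336.CS.Mal E) (phi psi : E → ℂ) (hphi : IsClass phi)
    (hpsi : IsClass psi) : B (T E phi) (T E psi) = B phi psi := by
  have hE1 : ∀ f : E → ℂ, (fun e : E => f e - f 1) = f - f 1 • (fun _ => (1 : ℂ)) := by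
    intro f
    funext e
    simp
  have c1 : IsClass (fun _ : W => (1 : ℂ)) := fun _ _ => rfl
  have c2 : ∀ f : E → ℂ, IsClass f → (fun e : E => T E f e) = f := fun f hf => by
    funext e
    exact T_coe hE f hf e
  have b11 : B (fun _ : W => (1 : ℂ)) (fun _ : W => (1 : ℂ)) = 1 := by
    have hW : (Nat.card W : ℂ) ≠ 0 := cardG_ne
    simp only [B, mul_one, Finset.sum_const, Finset.card_univ, nsmul_eq_mul]
    rw [← Nat.card_eq_fintype_card]
    field_simp
  have b12 : B (fun _ : E => (1 : ℂ)) (fun _ : E => (1 : ℂ)) = 1 := by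
    have hW : (Nat.card E : ℂ) ≠ 0 := cardG_ne
    simp only [B, mul_one, Finset.sum_const, Finset.card_univ, nsmul_eq_mul]
    rw [← Nat.card_eq_fintype_card]
    field_simp
  rw [B_T E phi _ (T_class E psi), c2 psi hpsi, B_comm (fun _ => 1) (T E psi),
    B_T E psi _ c1, hE1, hE1, B_sub_left, B_sub_left, B_smul_left, B_smul_left, b11, b12,
    B_comm psi]
  ring

omit [Fintype W] in
lemma irr_one {G : Type} [Group G] {chi : G → ℂ} (h : IsIrrChar chi) :
    ∃ n : ℕ, 0 < n ∧ chi 1 = n := by
  obtain ⟨V, _, _, _, rho, hr, rfl⟩ := h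
  refine ⟨Module.finrank ℂ V, ?_, by simp⟩
  haveI : Nontrivial V := by
    by_contra hn
    rw [not_nontrivial_iff_subsingleton] at hn
    have : Subsingleton (Subrepresentation rho) := by
      constructor
      intro a b
      ext x
      have : x = 0 := Subsingleton.elim _ _
      subst this
      simp
    have h5 := hr.toNontrivial
    exact not_subsingleton (Subrepresentation rho) this
  exact Module.finrank_pos

lemma B_one_char {G : Type} [Group G] [Fintype G] {V : Type} [AddCommGroup V] [Module ℂ V]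
    [FiniteDimensional ℂ V] (rho : Representation ℂ G V) :
    ∃ n : ℤ, B (fun _ => 1) rho.character = n := by
  haveI : Invertible (Nat.card G : ℂ) := invertibleOfNonzero cardG_ne
  refine ⟨(Module.finrank ℂ (invariants rho) : ℕ), ?_⟩
  have h := Representation.card_inv_mul_sum_char_eq_finrank rho
  rw [B_comm]
  simpa [B] using h

lemma B_char_char {G : Type} [Group G] [Fintype G] {V V' : Type} [AddCommGroup V] [Module ℂ V]
    [FiniteDimensional ℂ V] [AddCommGroup V'] [Module ℂ V']
    [FiniteDimensional ℂ V'] (rho : Representation ℂ G V) (sigma : Representation ℂ G V') :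
    ∃ n : ℤ, B sigma.character rho.character = n := by
  haveI : Invertible (Nat.card G : ℂ) := invertibleOfNonzero cardG_ne
  refine ⟨(Module.finrank ℂ (IntertwiningMap rho sigma) : ℕ), ?_⟩
  have h := Representation.card_inv_mul_sum_char_mul_char_eq_finrank rho sigma
  simpa [B] using h

lemma T_int {phi : E → ℂ} (hphi : IsIrrChar phi) {chi : W → ℂ} (hchi : IsIrrChar chi) :
    ∃ n : ℤ, B (T E phi) chi = n := by
  rw [B_T E phi chi hchi.isClass]
  obtain ⟨a, _, ha⟩ := irr_one hphi
  obtain ⟨V, _, _, _, rho, hr, rfl⟩ := hchi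
  obtain ⟨V', _, _, _, sigma, hs, rfl⟩ := hphi
  have hres : (fun e : E => rho.character (e : W)) =
      Representation.character (rho.comp E.subtype : Representation ℂ E V) := rfl
  have hE1 : (fun e : E => sigma.character e - sigma.character 1) =
      sigma.character - sigma.character 1 • (fun _ => (1 : ℂ)) := by
    funext e
    simp
  rw [hE1, B_sub_left, B_smul_left, hres, ha]
  obtain ⟨n1, h1⟩ := B_one_char rho
  obtain ⟨n2, h2⟩ := B_char_char (rho.comp E.subtype : Representation ℂ E V) sigma
  obtain ⟨n3, h3⟩ := B_one_char (rho.comp E.subtype : Representation ℂ E V)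
  refine ⟨a * n1 + (n2 - a * n3), ?_⟩
  rw [h1, h2, h3]
  push_cast
  ring

lemma irr_of_norm_one (f : W → ℂ) (hf : IsClass f)
    (hint : ∀ chi, IsIrrChar chi → ∃ n : ℤ, B f chi = n) (h1 : B f f = 1)
    (hpos : ∃ n : ℕ, 0 < n ∧ f 1 = n) : IsIrrChar f := by
  choose! n hn using hint
  have hs : ∑ chi ∈ Irr W, (n chi) ^ 2 = 1 := by
    have := B_expand f f hf
    rw [h1] at this
    have h2 : ∑ chi ∈ Irr W, B f chi * B chi f = ((∑ chi ∈ Irr W, (n chi) ^ 2 : ℤ) : ℂ) := by
      push_cast
      refine Finset.sum_congr rfl fun chi hchi => ?_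
      rw [B_comm chi f, hn chi (mem_Irr.mp hchi)]
      ring
    rw [h2] at this
    exact_mod_cast this.symm
  obtain ⟨chi0, hc0, hne⟩ : ∃ chi ∈ Irr W, (n chi) ^ 2 ≠ 0 := by
    by_contra hcon
    push Not at hcon
    rw [Finset.sum_eq_zero hcon] at hs
    exact absurd hs (by norm_num)
  have h2 := Finset.add_sum_erase (Irr W) (fun chi => (n chi) ^ 2) hc0
  rw [hs] at h2
  have h3 : 0 ≤ ∑ chi ∈ (Irr W).erase chi0, (n chi) ^ 2 := Finset.sum_nonneg fun _ _ => sq_nonneg _
  have h4 : 0 < (n chi0) ^ 2 := lt_of_le_of_ne (sq_nonneg _) (Ne.symm hne)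
  have h5 : (n chi0) ^ 2 = 1 := by omega
  have h6 : ∑ chi ∈ (Irr W).erase chi0, (n chi) ^ 2 = 0 := by omega
  have h7 := (Finset.sum_eq_zero_iff_of_nonneg fun _ _ => sq_nonneg _).mp h6
  have h8 : f = (n chi0 : ℂ) • chi0 := by
    conv_lhs => rw [expand f hf]
    rw [Finset.sum_eq_single chi0]
    · rw [hn chi0 (mem_Irr.mp hc0)]
    · intro chi hchi hne
      have := h7 chi (Finset.mem_erase.mpr ⟨hne, hchi⟩)
      rw [hn chi (mem_Irr.mp hchi)]
      have h9 : n chi = 0 := by simpa using this
      rw [h9]
      simp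
    · intro h
      exact absurd hc0 h
  have h9 : n chi0 = 1 ∨ n chi0 = -1 := by
    rwa [sq_eq_one_iff] at h5
  rcases h9 with h9 | h9
  · rw [h9] at h8
    rw [h8]
    simpa using mem_Irr.mp hc0
  · exfalso
    obtain ⟨a, ha, hfa⟩ := hpos
    obtain ⟨b, hb, hcb⟩ := irr_one (mem_Irr.mp hc0)
    rw [h8, h9] at hfa
    simp only [Pi.smul_apply, smul_eq_mul, hcb] at hfa
    have : (-(b : ℤ) : ℤ) = a := by
      have h10 : ((-(b : ℤ) : ℤ) : ℂ) = ((a : ℤ) : ℂ) := by
        push_cast at hfa ⊢
        rw [← hfa]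
        ring
      exact_mod_cast h10
    omega

lemma T_one (phi : E → ℂ) : T E phi 1 = phi 1 := by
  unfold T
  have : ∀ g : W, lam E phi (g⁻¹ * 1 * g) = 0 := by
    intro g
    have h1 : g⁻¹ * 1 * g = ((1 : E) : W) := by simp
    rw [h1, lam_coe, sub_self]
  rw [Finset.sum_eq_zero fun g _ => this g]
  simp

lemma T_irr (hE : Pool.Agent.W336.CS.Mal E) {phi : E → ℂ} (hphi : IsIrrChar phi) :
    IsIrrChar (T E phi) := by
  apply irr_of_norm_one _ (T_class E phi) (fun chi hchi => T_int hphi hchi)
  · rw [B_TT hE phi phi hphi.isClass hphi.isClass, B_irr hphi hphi, if_pos rfl]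
  · rw [T_one]
    exact irr_one hphi

/-- the indicator function of the elements which are not conjugate to nontrivial elements of `E` -/
def NN (E : Subgroup W) : Set W := {w | ∀ g : W, g⁻¹ * w * g ∈ E → w = 1}

def fN (E : Subgroup W) (w : W) : ℂ := if w ∈ NN E then 1 else 0

omit [Fintype W] in
lemma fN_class : IsClass (fN E) := by
  intro w y
  have : y * w * y⁻¹ ∈ NN E ↔ w ∈ NN E := by
    constructor
    · intro h g hg
      have := h (y * g) (by
        have e : (y * g)⁻¹ * (y * w * y⁻¹) * (y * g) = g⁻¹ * w * g := by group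
        rwa [e])
      have h2 := congrArg (fun t => y⁻¹ * t * y) this
      simpa [mul_assoc] using h2
    · intro h g hg
      have := h (y⁻¹ * g) (by
        have e : (y⁻¹ * g)⁻¹ * w * (y⁻¹ * g) = g⁻¹ * (y * w * y⁻¹) * g := by group
        rwa [e])
      rw [this]
      simp
  unfold fN
  simp only [this]

/-- the sum of `phi 1 • phi` over the irreducible characters -/
lemma column {G : Type} [Group G] [Fintype G] (x : G) :
    ∑ phi ∈ Irr G, phi 1 * phi x = if x = 1 then (Nat.card G : ℂ) else 0 := by
  have hG : (Nat.card G : ℂ) ≠ 0 := cardG_ne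
  have hcl : IsClass (fun g : G => if g = 1 then (Nat.card G : ℂ) else 0) := by
    intro g y
    have : y * g * y⁻¹ = 1 ↔ g = 1 := by
      constructor
      · intro h
        have h2 := congrArg (fun t => y⁻¹ * t * y) h
        simpa [mul_assoc] using h2
      · intro h
        rw [h]
        simp
    simp only [this]
  have h := congrFun (expand _ hcl) x
  simp only [Finset.sum_apply, Pi.smul_apply, smul_eq_mul] at h
  rw [h]
  refine Finset.sum_congr rfl fun phi _ => ?_
  congr 1
  unfold B
  simp only [ite_mul, zero_mul, Finset.sum_ite_eq', Finset.mem_univ, if_true, inv_one]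
  field_simp

lemma theta (hE : Pool.Agent.W336.CS.Mal E) (w : W) :
    ∑ phi ∈ Irr E, phi 1 * T E phi w = (Nat.card E : ℂ) * fN E w := by
  by_cases hw : w ∈ NN E
  · have h1 : ∀ phi : E → ℂ, T E phi w = phi 1 := by
      intro phi
      unfold T
      have : ∀ g : W, lam E phi (g⁻¹ * w * g) = 0 := by
        intro g
        by_cases hg : g⁻¹ * w * g ∈ E
        · have h2 := hw g hg
          have h3 : g⁻¹ * w * g = ((1 : E) : W) := by rw [h2]; simp
          rw [h3, lam_coe, sub_self]
        · exact lam_not E phi hg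
      rw [Finset.sum_eq_zero fun g _ => this g]
      simp
    rw [fN, if_pos hw, mul_one, Finset.sum_congr rfl fun phi _ => by rw [h1 phi], column]
    simp
  · have hw' := hw
    simp only [NN, Set.mem_setOf_eq] at hw'
    push Not at hw'
    obtain ⟨g, hg, hw1⟩ := hw'
    set e : E := ⟨g⁻¹ * w * g, hg⟩ with he
    have hT : ∀ phi ∈ Irr E, phi 1 * T E phi w = phi 1 * phi e := by
      intro phi hphi
      congr 1
      rw [← T_coe hE phi (mem_Irr.mp hphi).isClass e]
      have := T_class E phi w g⁻¹
      rw [← this]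
      simp [he]
    rw [Finset.sum_congr rfl hT, column, fN, if_neg hw, mul_zero, if_neg]
    intro h
    apply hw1
    have h2 := congrArg (fun t : E => g * (t : W) * g⁻¹) h
    simpa [he, mul_assoc] using h2

lemma B_fN (hE : Pool.Agent.W336.CS.Mal E) {chi : W → ℂ} (hchi : IsIrrChar chi) :
    (Nat.card E : ℂ) * B (fN E) chi = 0 ∨ (Nat.card E : ℂ) * B (fN E) chi = chi 1 := by
  have h1 : (Nat.card E : ℂ) • fN E = ∑ phi ∈ Irr E, phi 1 • T E phi := by
    funext w
    simp only [Finset.sum_apply, Pi.smul_apply, smul_eq_mul]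
    exact (theta hE w).symm
  rw [← B_smul_left, h1, B_sum_left]
  simp only [B_smul_left]
  by_cases h : ∃ phi ∈ Irr E, T E phi = chi
  · right
    obtain ⟨phi, hphi, rfl⟩ := h
    rw [Finset.sum_eq_single phi]
    · rw [B_TT hE _ _ (mem_Irr.mp hphi).isClass (mem_Irr.mp hphi).isClass,
        B_irr (mem_Irr.mp hphi) (mem_Irr.mp hphi), if_pos rfl, mul_one, T_one]
    · intro psi hpsi hne
      rw [B_TT hE _ _ (mem_Irr.mp hpsi).isClass (mem_Irr.mp hphi).isClass,
        B_irr (mem_Irr.mp hpsi) (mem_Irr.mp hphi), if_neg hne, mul_zero]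
    · intro h
      exact absurd hphi h
  · left
    apply Finset.sum_eq_zero
    intro phi hphi
    rw [B_irr (T_irr hE (mem_Irr.mp hphi)) hchi, if_neg (fun hh => h ⟨phi, hphi, hh⟩), mul_zero]

lemma triv_irr {G : Type} [Group G] [Fintype G] : IsIrrChar (fun _ : G => (1 : ℂ)) := by
  apply irr_of_norm_one
  · intro g y
    rfl
  · intro chi hchi
    obtain ⟨V, _, _, _, rho, hr, rfl⟩ := hchi
    exact B_one_char rho
  · have hG : (Nat.card G : ℂ) ≠ 0 := cardG_ne
    simp only [B, mul_one, Finset.sum_const, Finset.card_univ, nsmul_eq_mul]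
    rw [← Nat.card_eq_fintype_card]
    field_simp
  · exact ⟨1, one_pos, by simp⟩

lemma sum_fN (hE : Pool.Agent.W336.CS.Mal E) :
    (Nat.card E : ℂ) * ∑ w : W, fN E w = Nat.card W := by
  have hG : (Nat.card W : ℂ) ≠ 0 := cardG_ne
  have hEc : (Nat.card E : ℂ) ≠ 0 := cardG_ne
  have h1 : (∑ w : W, fN E w) = ((Finset.univ.filter (· ∈ NN E)).card : ℂ) := by
    simp [fN]
  have h2 : ((Finset.univ.filter (· ∈ NN E)).card : ℂ) ≠ 0 := by
    rw [Nat.cast_ne_zero, Finset.card_ne_zero]
    refine ⟨1, ?_⟩
    have h3 : (1 : W) ∈ NN E := fun g _ => rfl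
    simpa using h3
  rcases B_fN hE (triv_irr (G := W)) with h | h
  · exfalso
    rw [mul_eq_zero] at h
    rcases h with h | h
    · exact hEc h
    · simp only [B, mul_one] at h
      rw [h1, mul_eq_zero] at h
      rcases h with h | h
      · exact inv_ne_zero hG h
      · exact h2 h
  · simp only [B, mul_one] at h
    field_simp at h
    exact h

lemma Top_sub {V : Type} [AddCommGroup V] [Module ℂ V] (rho : Representation ℂ W V)
    (f f' : W → ℂ) : Top rho (f - f') = Top rho f - Top rho f' := by
  simp [Helper884.IC.Top, sub_smul, Finset.sum_sub_distrib]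

lemma Top_smul {V : Type} [AddCommGroup V] [Module ℂ V] (rho : Representation ℂ W V)
    (c : ℂ) (f : W → ℂ) : Top rho (c • f) = c • Top rho f := by
  simp [Helper884.IC.Top, Finset.smul_sum, mul_smul]

lemma Top_delta {V : Type} [AddCommGroup V] [Module ℂ V] (rho : Representation ℂ W V) :
    Top rho (fun g => if g = 1 then 1 else 0) = 1 := by
  simp [Helper884.IC.Top]

lemma Top_conv {V : Type} [AddCommGroup V] [Module ℂ V] (rho : Representation ℂ W V)
    (f f' : W → ℂ) : Top rho (fun w => ∑ h : W, f h * f' (h⁻¹ * w)) = Top rho f' * Top rho f := by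
  unfold Helper884.IC.Top
  rw [Finset.mul_sum]
  simp only [Finset.sum_smul]
  rw [Finset.sum_comm]
  refine Finset.sum_congr rfl fun h _ => ?_
  rw [Finset.sum_mul]
  refine Fintype.sum_equiv (Equiv.mulLeft h⁻¹) _ _ fun w => ?_
  simp only [Equiv.coe_mulLeft]
  rw [smul_mul_smul_comm, ← map_mul, mul_comm (f h)]
  congr 2
  group

lemma trace_Top {V : Type} [AddCommGroup V] [Module ℂ V] [FiniteDimensional ℂ V]
    (rho : Representation ℂ W V) (f : W → ℂ) :
    LinearMap.trace ℂ V (Top rho f) = ∑ g : W, f g * rho.character g⁻¹ := by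
  simp [Helper884.IC.Top, Representation.character]

lemma conv_eq (hE : Pool.Agent.W336.CS.Mal E) (w : W) :
    ∑ h : W, fN E h * fN E (h⁻¹ * w) = (∑ x : W, fN E x) * fN E w := by
  have hG : (Nat.card W : ℂ) ≠ 0 := cardG_ne
  have hEc : (Nat.card E : ℂ) ≠ 0 := cardG_ne
  set m : ℂ := ∑ x : W, fN E x with hm
  have hEm : (Nat.card E : ℂ) * m = Nat.card W := sum_fN hE
  have hcl : IsClass (fun w : W => ∑ h : W, fN E h * fN E (h⁻¹ * w)) := by
    intro w y
    simp only
    refine Fintype.sum_equiv (MulAut.conj y⁻¹).toEquiv _ _ fun h => ?_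
    have e1 : (MulAut.conj y⁻¹).toEquiv h = y⁻¹ * h * y := by simp
    rw [e1]
    have h1 := fN_class (E := E) h y⁻¹
    rw [inv_inv] at h1
    have h2 := fN_class (E := E) (h⁻¹ * (y * w * y⁻¹)) y⁻¹
    rw [inv_inv] at h2
    rw [h1, ← h2]
    congr 2
    group
  have hF : (fun w : W => ∑ h : W, fN E h * fN E (h⁻¹ * w)) - m • fN E = 0 := by
    apply class_eq_zero
    · intro g y
      have hclg := hcl g y
      simp only at hclg
      simp only [Pi.sub_apply, Pi.smul_apply, smul_eq_mul]
      rw [hclg, fN_class g y]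
    · intro chi hchi
      have hb := B_fN hE hchi
      obtain ⟨V, _, _, _, rho, hr, rfl⟩ := hchi
      have hT : Top rho (fN E) = 0 ∨ Top rho (fN E) = m • 1 := by
        rcases hb with hb | hb
        · left
          apply Top_zero_of_irr rho _ fN_class
          rcases mul_eq_zero.mp hb with h | h
          · exact absurd h hEc
          · exact h
        · right
          have hd : IsClass (fun g : W => if g = 1 then (1 : ℂ) else 0) := by
            intro g y
            have : y * g * y⁻¹ = 1 ↔ g = 1 := by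
              constructor
              · intro h
                have h2 := congrArg (fun t => y⁻¹ * t * y) h
                simpa [mul_assoc] using h2
              · intro h
                rw [h]
                simp
            simp only [this]
          have h1 : Top rho (fN E - m • (fun g : W => if g = 1 then (1 : ℂ) else 0)) = 0 := by
            apply Top_zero_of_irr rho
            · intro g y
              simp only [Pi.sub_apply, Pi.smul_apply, smul_eq_mul]
              rw [fN_class g y]
              have := hd g y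
              simp only at this
              rw [this]
            · rw [B_sub_left, B_smul_left]
              have h2 : B (fun g : W => if g = 1 then (1 : ℂ) else 0) rho.character =
                  (Nat.card W : ℂ)⁻¹ * rho.character 1 := by
                unfold B
                simp only [ite_mul, zero_mul, one_mul, Finset.sum_ite_eq', Finset.mem_univ,
                  if_true, inv_one]
              rw [h2]
              have h3 : B (fN E) rho.character = (Nat.card E : ℂ)⁻¹ * rho.character 1 := by
                rw [← hb]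
                field_simp
              rw [h3]
              have h4 : (Nat.card E : ℂ)⁻¹ = m * (Nat.card W : ℂ)⁻¹ := by
                rw [← hEm]
                have hm0 : m ≠ 0 := by
                  intro h
                  rw [h, mul_zero] at hEm
                  exact hG hEm.symm
                field_simp
              rw [h4]
              ring
          rw [Top_sub, Top_smul, Top_delta, sub_eq_zero] at h1
          exact h1
      have hT2 : Top rho ((fun w : W => ∑ h : W, fN E h * fN E (h⁻¹ * w)) - m • fN E) = 0 := by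
        rw [Top_sub, Top_smul, Top_conv]
        rcases hT with h | h
        · rw [h]
          simp
        · rw [h]
          simp [smul_smul]
      have := trace_Top rho ((fun w : W => ∑ h : W, fN E h * fN E (h⁻¹ * w)) - m • fN E)
      rw [hT2, map_zero] at this
      unfold B
      rw [← this, mul_zero]
  have := congrFun hF w
  simpa [sub_eq_zero] using this

lemma NN_mul (hE : Pool.Agent.W336.CS.Mal E) {a b : W} (ha : a ∈ NN E) (hb : b ∈ NN E) :
    a * b ∈ NN E := by
  by_contra hab
  have h1 := conv_eq hE (a * b)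
  rw [fN, if_neg hab, mul_zero] at h1
  have h2 : ∑ h : W, fN E h * fN E (h⁻¹ * (a * b)) =
      ((Finset.univ.filter (fun h => h ∈ NN E ∧ h⁻¹ * (a * b) ∈ NN E)).card : ℂ) := by
    simp only [fN, mul_ite, mul_one, mul_zero, Finset.card_filter, Nat.cast_sum, Nat.cast_ite,
      Nat.cast_one, Nat.cast_zero]
    refine Finset.sum_congr rfl fun h _ => ?_
    by_cases h1 : h ∈ NN E <;> by_cases h2 : h⁻¹ * (a * b) ∈ NN E <;> simp [h1, h2]
  rw [h2, Nat.cast_eq_zero, Finset.card_eq_zero] at h1
  have h3 : a ∈ (Finset.univ.filter (fun h => h ∈ NN E ∧ h⁻¹ * (a * b) ∈ NN E)) := by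
    simp [ha, hb]
  rw [h1] at h3
  simp at h3

/-- the Frobenius kernel -/
def K (hE : Pool.Agent.W336.CS.Mal E) : Subgroup W where
  carrier := NN E
  one_mem' := fun _ _ => rfl
  mul_mem' := fun ha hb => NN_mul hE ha hb
  inv_mem' := by
    intro w hw g hg
    have h1 : g⁻¹ * w * g ∈ E := by
      have := E.inv_mem hg
      simpa [mul_assoc] using this
    rw [hw g h1, inv_one]

/-- Frobenius' theorem -/
theorem frob : Pool.Agent.W336.CS.S_frob := by
  intro W _ _ E hE
  haveI : Fintype W := Fintype.ofFinite W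
  have hEc : (Nat.card E : ℂ) ≠ 0 := cardG_ne
  refine ⟨K hE, ?_, ?_, ?_⟩
  · constructor
    intro n hn g
    change g * n * g⁻¹ ∈ NN E
    intro y hy
    have h1 := hn (g⁻¹ * y) (by
      have e : (g⁻¹ * y)⁻¹ * n * (g⁻¹ * y) = y⁻¹ * (g * n * g⁻¹) * y := by group
      rwa [e])
    rw [h1]
    simp
  · rw [eq_bot_iff]
    intro w hw
    obtain ⟨hw1, hw2⟩ := Subgroup.mem_inf.mp hw
    have : w = 1 := hw1 1 (by simpa using hw2)
    rw [this]
    exact one_mem _
  · have hcard : Nat.card (K hE) * Nat.card E = Nat.card W := by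
      have h1 := sum_fN hE
      have h2 : (∑ w : W, fN E w) = (Nat.card (K hE) : ℂ) := by
        have : Nat.card (K hE) = (Finset.univ.filter (· ∈ NN E)).card := by
          rw [Nat.card_eq_fintype_card, Fintype.card_subtype]
          rfl
        rw [this]
        simp [fN]
      rw [h2] at h1
      have h3 : ((Nat.card E * Nat.card (K hE) : ℕ) : ℂ) = ((Nat.card W : ℕ) : ℂ) := by
        push_cast
        exact h1
      rw [mul_comm]
      exact_mod_cast h3
    have hdis : Disjoint (K hE) E := by
      rw [disjoint_iff, eq_bot_iff]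
      intro w hw
      obtain ⟨hw1, hw2⟩ := Subgroup.mem_inf.mp hw
      have : w = 1 := hw1 1 (by simpa using hw2)
      rw [this]
      exact one_mem _
    exact (Subgroup.isComplement'_of_card_mul_and_disjoint hcard hdis).sup_eq_top

end Pool.Agent.W366.CS
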