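import Pool.Agent.W336.CS.Stmts

/-!
# Subgroups containing the normalizers of their nontrivial subgroups are malnormal
-/

namespace Pool.Agent.W366.CS

open Pool.Agent.W336.CS Subgroup

theorem mal : S_mal := by
  intro W _ _ E hN w x hx hx1 hwx
  obtain ⟨p, hp, hpx⟩ := Nat.exists_prime_and_dvd (n := orderOf x)
    (by rwa [Ne, orderOf_eq_one_iff])
  haveI : Fact p.Prime := ⟨hp⟩
  set x0 := x ^ (orderOf x / p) with hx0
  have hx0o : orderOf x0 = p := orderOf_pow_orderOf_div (orderOf_pos x).ne' hpx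
  let S : Set (Subgroup W) := {X | IsPGroup p X ∧ X ≤ E ∧ ∀ y ∈ X, w * y * w⁻¹ ∈ E}
  have hS0 : zpowers x0 ∈ S := by
    refine ⟨?_, ?_, ?_⟩
    · apply IsPGroup.of_card (n := 1)
      rw [Nat.card_zpowers, hx0o, pow_one]
    · rw [zpowers_le]
      exact E.pow_mem hx _
    · intro y hy
      obtain ⟨k, rfl⟩ := mem_zpowers_iff.mp hy
      have : w * x0 ^ k * w⁻¹ = ((w * x * w⁻¹) ^ (orderOf x / p)) ^ k := by
        rw [hx0, conj_pow, conj_zpow]
      rw [this]
      exact E.zpow_mem (E.pow_mem hwx _) _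
  obtain ⟨P, hP0, hPmax⟩ := (Set.toFinite S).exists_le_maximal hS0
  obtain ⟨hPp, hPE, hPw⟩ := hPmax.prop
  have hPbot : P ≠ ⊥ := by
    intro h
    rw [h, le_bot_iff, zpowers_eq_bot] at hP0
    rw [hP0, orderOf_one] at hx0o
    exact hp.one_lt.ne hx0o
  obtain ⟨Q, hPQ⟩ := hPp.exists_le_sylow
  -- conjugates
  have hN1 : normalizer (P : Set W) ≤ E := hN P hPE hPbot
  set Pw : Subgroup W := P.comap (MulAut.conj w⁻¹).toMonoidHom with hPwdef
  have hmem : ∀ y, y ∈ Pw ↔ w⁻¹ * y * w ∈ P := by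
    intro y
    simp [hPwdef, Subgroup.mem_comap]
  have hPwE : Pw ≤ E := by
    intro y hy
    have := hPw _ ((hmem y).mp hy)
    simpa [mul_assoc] using this
  have hPwbot : Pw ≠ ⊥ := by
    intro h
    apply hPbot
    rw [eq_bot_iff]
    intro y hy
    have h1 : w * y * w⁻¹ ∈ Pw := (hmem _).mpr (by simpa [mul_assoc] using hy)
    rw [h, mem_bot] at h1
    rw [mem_bot]
    simpa using h1
  have hN2 : normalizer (Pw : Set W) ≤ E := hN Pw hPwE hPwbot
  have hconjN : ∀ z ∈ normalizer (P : Set W), w * z * w⁻¹ ∈ E := by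
    intro z hz
    apply hN2
    rw [mem_normalizer_iff] at hz ⊢
    intro h
    rw [hmem, hmem, hz]
    have : w⁻¹ * (w * z * w⁻¹ * h * (w * z * w⁻¹)⁻¹) * w = z * (w⁻¹ * h * w) * z⁻¹ := by group
    rw [this]
  have hPeq : P = Q := by
    by_contra hne
    have hlt : P < (Q : Subgroup W) := lt_of_le_of_ne hPQ hne
    haveI hnil : Group.IsNilpotent (Q : Subgroup W) := Q.2.isNilpotent
    have hnc := Group.normalizerCondition_of_isNilpotent (G := (Q : Subgroup W))
    have hlt2 : P.subgroupOf Q < ⊤ := by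
      rw [lt_top_iff_ne_top]
      intro h
      rw [subgroupOf_eq_top] at h
      exact absurd h (not_le_of_gt hlt)
    obtain ⟨y, hy1, hy2⟩ := SetLike.exists_of_lt (hnc _ hlt2)
    have hyN : (y : W) ∈ normalizer (P : Set W) := by
      rw [mem_normalizer_iff] at hy1 ⊢
      -- y normalizes P since P ≤ Q
      intro h
      constructor
      · intro hh
        have := (hy1 ⟨h, hPQ hh⟩).mp (by simpa [mem_subgroupOf] using hh)
        simpa [mem_subgroupOf] using this
      · intro hh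
        have hhQ : h ∈ (Q : Subgroup W) := by
          have h1 : (y : W) * h * (y : W)⁻¹ ∈ (Q : Subgroup W) := hPQ hh
          have h2 := (Q : Subgroup W).mul_mem ((Q : Subgroup W).mul_mem
            ((Q : Subgroup W).inv_mem y.2) h1) y.2
          simpa [mul_assoc] using h2
        have := (hy1 ⟨h, hhQ⟩).mpr (by simpa [mem_subgroupOf] using hh)
        simpa [mem_subgroupOf] using this
    have hmemS : (Q : Subgroup W) ⊓ normalizer (P : Set W) ∈ S := by
      refine ⟨Q.2.to_le inf_le_left, inf_le_right.trans hN1, ?_⟩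
      intro z hz
      exact hconjN z (mem_inf.mp hz).2
    have h3 : P ≤ (Q : Subgroup W) ⊓ normalizer (P : Set W) := le_inf hPQ le_normalizer
    have h4 := hPmax.le_of_ge hmemS h3
    have h5 : (y : W) ∈ P := h4 (mem_inf.mpr ⟨y.2, hyN⟩)
    exact hy2 (by simpa [mem_subgroupOf] using h5)
  have hQE : (Q : Subgroup W) ≤ E := hPeq ▸ hPE
  have hwQ : ((w • Q : Sylow p W) : Subgroup W) ≤ E := by
    intro y hy
    rw [Sylow.coe_subgroup_smul, Subgroup.mem_pointwise_smul_iff_inv_smul_mem] at hy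
    have h1 : w⁻¹ * y * w ∈ P := by
      rw [hPeq]
      simpa [MulAut.smul_def] using hy
    have := hPw _ h1
    simpa [mul_assoc] using this
  obtain ⟨e, he⟩ := MulAction.exists_smul_eq E (Q.subtype hQE) ((w • Q).subtype hwQ)
  rw [Sylow.smul_subtype] at he
  have h6 := Sylow.subtype_injective he
  have h7 : ((e : W)⁻¹ * w) • Q = Q := by
    rw [mul_smul, ← h6]
    change (e : W)⁻¹ • ((e : W) • Q) = Q
    rw [inv_smul_smul]
  rw [Sylow.smul_eq_iff_mem_normalizer] at h7
  have h8 : (e : W)⁻¹ * w ∈ E := hN1 (by rw [hPeq]; exact h7)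
  have := E.mul_mem e.2 h8
  simpa using this

end Pool.Agent.W366.CS
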